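import Pool.Agent.KS6_28.CH.Tow

/-!
# Combinatorics of prestable graphs
-/

set_option autoImplicit false
set_option linter.style.haveILetI false

namespace Pool.Agent.KS6_28.CH

open Pool.Agent.H353R3.Ch

/-- Isomorphism of prestable graphs of genus `0` with `n` legs. -/
def PIso {n : ℕ} (Γ Γ' : PTree n) : Prop := ∃ σ : Γ.G ≃g Γ'.G, ∀ i, σ (Γ.leg i) = Γ'.leg i

variable {n : ℕ}

theorem PIso.symm {Γ Γ' : PTree n} (h : PIso Γ Γ') : PIso Γ' Γ := by
  obtain ⟨σ, hσ⟩ := h
  refine ⟨σ.symm, fun i => ?_⟩
  rw [← hσ i]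
  exact σ.symm_apply_apply _

theorem val_eq_card (Γ : PTree n) (v : Γ.V) :
    Γ.val v = Γ.G.degree v + Fintype.card {i : Fin n // Γ.leg i = v} := val_eq Γ v

theorem val_iso {Γ Γ' : PTree n} (σ : Γ.G ≃g Γ'.G) (hσ : ∀ i, σ (Γ.leg i) = Γ'.leg i) (v : Γ.V) :
    Γ'.val (σ v) = Γ.val v := by
  rw [val_eq_card, val_eq_card, σ.degree_eq v]
  congr 1
  refine Fintype.card_congr (Equiv.subtypeEquivRight fun i => ?_)
  rw [← hσ i]
  exact σ.injective.eq_iff

theorem low_iso {Γ Γ' : PTree n} (h : PIso Γ Γ') :
    Fintype.card (Low Γ) = Fintype.card (Low Γ') := by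
  obtain ⟨σ, hσ⟩ := h
  refine Fintype.card_congr (Equiv.subtypeEquiv σ.toEquiv fun v => ?_)
  have := val_iso σ hσ v
  change _ ↔ Γ'.val (σ v) ≤ 2
  rw [this]

theorem card_iso {Γ Γ' : PTree n} (h : PIso Γ Γ') : Fintype.card Γ.V = Fintype.card Γ'.V := by
  obtain ⟨σ, hσ⟩ := h
  exact Fintype.card_congr σ.toEquiv

theorem sum_val (Γ : PTree n) : ∑ v, Γ.val v + 2 = 2 * Fintype.card Γ.V + n := by
  have h1 : ∑ v, Γ.val v = Fintype.card Γ.Flag := by
    unfold PTree.val
    rw [← Fintype.card_sigma]
    exact Fintype.card_congr (Equiv.sigmaFiberEquiv Γ.base)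
  have h2 := Γ.G.dart_card_eq_twice_card_edges
  have h3 := Γ.tree.card_edgeFinset
  rw [h1, Fintype.card_sum, Fintype.card_fin]
  omega

/-- the number of vertices is bounded by the number of those of valence at most two -/
theorem card_le (Γ : PTree n) : Fintype.card Γ.V + 2 ≤ 3 * Fintype.card (Low Γ) + n := by
  classical
  have h1 : 3 * Fintype.card Γ.V ≤ ∑ v, Γ.val v + 3 * Fintype.card (Low Γ) := by
    have h2 : ∀ v : Γ.V, 3 ≤ Γ.val v + (if Γ.val v ≤ 2 then 3 else 0) := by
      intro v; split_ifs <;> omega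
    have h3 := Finset.sum_le_sum (s := Finset.univ) fun v _ => h2 v
    rw [Finset.sum_const, Finset.card_univ, smul_eq_mul, Finset.sum_add_distrib,
      ← Finset.sum_filter, Finset.sum_const, smul_eq_mul] at h3
    have h4 : (Finset.univ.filter fun v : Γ.V => Γ.val v ≤ 2).card = Fintype.card (Low Γ) :=
      (Fintype.card_subtype _).symm
    rw [h4] at h3
    omega
  have := sum_val Γ
  omega

theorem low_le (Γ : PTree n) : Fintype.card (Low Γ) ≤ Fintype.card Γ.V :=
  Fintype.card_subtype_le _


/-- if there are at least three legs, some vertex has valence at least three -/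
theorem low_lt (Γ : PTree n) (hn : 3 ≤ n) : Fintype.card (Low Γ) < Fintype.card Γ.V := by
  by_contra hcon
  have hall : ∀ v : Γ.V, Γ.val v ≤ 2 := by
    intro v
    by_contra hv
    exact hcon (Fintype.card_subtype_lt (p := fun v => Γ.val v ≤ 2) hv)
  have h1 : ∑ v, Γ.val v ≤ ∑ _v : Γ.V, 2 := Finset.sum_le_sum fun v _ => hall v
  rw [Finset.sum_const, Finset.card_univ, smul_eq_mul] at h1
  have := sum_val Γ
  omega

/-! ### finitely many prestable graphs with a bounded number of vertices -/

/-- a prestable graph on `Fin k` -/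
abbrev Code (n N : ℕ) : Type := Σ k : Fin (N + 1), SimpleGraph (Fin k) × (Fin n → Fin k)

theorem exists_code {N : ℕ} (Γ : PTree n) (h : Fintype.card Γ.V ≤ N) :
    ∃ (c : Code n N) (σ : Γ.G ≃g c.2.1), ∀ i, σ (Γ.leg i) = c.2.2 i := by
  let e : Γ.V ≃ Fin (Fintype.card Γ.V) := Fintype.equivFin Γ.V
  refine ⟨⟨⟨Fintype.card Γ.V, by omega⟩, Γ.G.map e.toEmbedding, fun i => e (Γ.leg i)⟩,
    SimpleGraph.Iso.map e Γ.G, fun i => rfl⟩

theorem finite_of_card_le {ι : Type} {N : ℕ} (Γ : ι → PTree n)
    (inj : ∀ a b, PIso (Γ a) (Γ b) → a = b) (h : ∀ a, Fintype.card (Γ a).V ≤ N) : Finite ι := by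
  choose c σ hσ using fun a => exists_code (Γ a) (h a)
  refine Finite.of_injective c ?_
  intro a b hab
  apply inj
  have key : ∀ (x y : Code n N) (_ : x = y) (s : (Γ a).G ≃g x.2.1) (t : (Γ b).G ≃g y.2.1)
      (_ : ∀ i, s ((Γ a).leg i) = x.2.2 i) (_ : ∀ i, t ((Γ b).leg i) = y.2.2 i),
      PIso (Γ a) (Γ b) := by
    rintro x _ rfl s t hs ht
    refine ⟨s.trans t.symm, fun i => ?_⟩
    change t.symm (s ((Γ a).leg i)) = _
    rw [hs i, ← ht i]
    exact t.symm_apply_apply _
  exact key _ _ hab (σ a) (σ b) (hσ a) (hσ b)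

/-! ### chains -/

theorem pathGraph_isTree (e : ℕ) : (SimpleGraph.pathGraph (e + 1)).IsTree := by
  rw [SimpleGraph.isTree_iff_connected_and_card]
  have hc := SimpleGraph.pathGraph_connected e
  refine ⟨hc, ?_⟩
  have h1 := hc.card_vert_le_card_edgeSet_add_one
  have h2 : Nat.card (SimpleGraph.pathGraph (e + 1)).edgeSet ≤ e := by
    have hs : Function.Surjective (fun i : Fin e =>
        (⟨s(i.castSucc, i.succ), by
          rw [SimpleGraph.mem_edgeSet, SimpleGraph.pathGraph_adj]
          left; simp⟩ : (SimpleGraph.pathGraph (e + 1)).edgeSet)) := by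
      rintro ⟨x, hx⟩
      induction x using Sym2.ind with
      | _ u v =>
        rw [SimpleGraph.mem_edgeSet, SimpleGraph.pathGraph_adj] at hx
        rcases hx with hx | hx
        · refine ⟨⟨u.1, by have := v.2; omega⟩, ?_⟩
          apply Subtype.ext
          have e1 : (⟨u.1, by have := v.2; omega⟩ : Fin e).castSucc = u := rfl
          have e2 : (⟨u.1, by have := v.2; omega⟩ : Fin e).succ = v := Fin.ext hx
          simp only [e1, e2]
        · refine ⟨⟨v.1, by have := u.2; omega⟩, ?_⟩
          apply Subtype.ext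
          have e1 : (⟨v.1, by have := u.2; omega⟩ : Fin e).castSucc = v := rfl
          have e2 : (⟨v.1, by have := u.2; omega⟩ : Fin e).succ = u := Fin.ext hx
          simp only [e1, e2]
          exact Sym2.eq_swap
    have := Nat.card_le_card_of_surjective _ hs
    simpa using this
  rw [Nat.card_eq_fintype_card (α := Fin (e + 1)), Fintype.card_fin] at h1 ⊢
  omega

/-- the chain with `e` nodes and legs at given vertices -/
noncomputable def chain (n e : ℕ) (l : Fin n → Fin (e + 1)) : PTree n where
  V := Fin (e + 1)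
  G := SimpleGraph.pathGraph (e + 1)
  dG := Classical.decRel _
  tree := pathGraph_isTree e
  leg := l

theorem chain_degree (n e : ℕ) (l : Fin n → Fin (e + 1)) (v : Fin (e + 1)) :
    (chain n e l).G.degree v ≤ (if v.1 = 0 then 0 else 1) + (if v.1 = e then 0 else 1) := by
  classical
  rw [← SimpleGraph.card_neighborFinset_eq_degree]
  have hsub : (chain n e l).G.neighborFinset v ⊆
      (Finset.univ.filter fun w : Fin (e + 1) => w.1 + 1 = v.1) ∪
      (Finset.univ.filter fun w : Fin (e + 1) => v.1 + 1 = w.1) := by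
    intro w hw
    rw [SimpleGraph.mem_neighborFinset] at hw
    have hw' : (SimpleGraph.pathGraph (e + 1)).Adj v w := hw
    rw [SimpleGraph.pathGraph_adj] at hw'
    simp only [Finset.mem_union, Finset.mem_filter, Finset.mem_univ, true_and]
    tauto
  refine (Finset.card_le_card hsub).trans ((Finset.card_union_le _ _).trans ?_)
  refine add_le_add ?_ ?_
  · split_ifs with h
    · rw [Nat.le_zero, Finset.card_eq_zero, Finset.filter_eq_empty_iff]
      intro w _
      omega
    · rw [Finset.card_le_one]
      intro a ha b hb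
      rw [Finset.mem_filter] at ha hb
      exact Fin.ext (by omega)
  · split_ifs with h
    · rw [Nat.le_zero, Finset.card_eq_zero, Finset.filter_eq_empty_iff]
      intro w _
      have := w.2
      omega
    · rw [Finset.card_le_one]
      intro a ha b hb
      rw [Finset.mem_filter] at ha hb
      exact Fin.ext (by omega)

/-- a chain all of whose vertices have valence at most two -/
theorem exists_chain_low (hn : n ≤ 2) (e : ℕ) :
    ∃ Γ : PTree n, Fintype.card Γ.V = e + 1 ∧ Fintype.card (Low Γ) = e + 1 := by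
  classical
  let l : Fin n → Fin (e + 1) := fun i => if i.1 = 0 then 0 else Fin.last e
  have hV : Fintype.card (chain n e l).V = e + 1 := Fintype.card_fin _
  refine ⟨chain n e l, hV, ?_⟩
  rw [← hV]
  refine Fintype.card_congr (Equiv.subtypeUnivEquiv fun v => ?_)
  rw [val_eq_card]
  have h1 := chain_degree n e l v
  have h2 : Fintype.card {i : Fin n // (chain n e l).leg i = v} ≤
      (if (v : Fin (e + 1)).1 = 0 then 1 else 0) + (if (v : Fin (e + 1)).1 = e then 1 else 0) := by
    rw [Fintype.card_subtype]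
    have hsub : (Finset.univ.filter fun i : Fin n => (chain n e l).leg i = v) ⊆
        (Finset.univ.filter fun i : Fin n => i.1 = 0 ∧ (v : Fin (e + 1)).1 = 0) ∪
        (Finset.univ.filter fun i : Fin n => i.1 ≠ 0 ∧ (v : Fin (e + 1)).1 = e) := by
      intro i hi
      simp only [Finset.mem_filter, Finset.mem_univ, true_and, Finset.mem_union] at hi ⊢
      have hi' : l i = v := hi
      by_cases h0 : i.1 = 0
      · left
        simp only [l, if_pos h0] at hi'
        exact ⟨h0, by rw [← hi']; rfl⟩
      · right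
        simp only [l, if_neg h0] at hi'
        exact ⟨h0, by rw [← hi']; rfl⟩
    refine (Finset.card_le_card hsub).trans ((Finset.card_union_le _ _).trans ?_)
    refine add_le_add ?_ ?_
    · split_ifs with h
      · rw [Finset.card_le_one]
        intro a ha b hb
        rw [Finset.mem_filter] at ha hb
        exact Fin.ext (by omega)
      · rw [Nat.le_zero, Finset.card_eq_zero, Finset.filter_eq_empty_iff]
        intro w _ hw
        exact h hw.2
    · split_ifs with h
      · rw [Finset.card_le_one]
        intro a ha b hb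
        rw [Finset.mem_filter] at ha hb
        have := a.2
        have := b.2
        exact Fin.ext (by omega)
      · rw [Nat.le_zero, Finset.card_eq_zero, Finset.filter_eq_empty_iff]
        intro w _ hw
        exact h hw.2
  split_ifs at h1 h2 <;> omega

/-- a chain all of whose vertices but one have valence at most two -/
theorem exists_chain_low' (e : ℕ) :
    ∃ Γ : PTree n, Fintype.card Γ.V = e + 1 ∧ e ≤ Fintype.card (Low Γ) := by
  classical
  let l : Fin n → Fin (e + 1) := fun _ => 0
  have hV : Fintype.card (chain n e l).V = e + 1 := Fintype.card_fin _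
  refine ⟨chain n e l, hV, ?_⟩
  have hlow : ∀ i : Fin e, (chain n e l).val (i.succ : Fin (e + 1)) ≤ 2 := by
    intro i
    rw [val_eq_card]
    have h1 := chain_degree n e l i.succ
    have h2 : Fintype.card {j : Fin n // (chain n e l).leg j = (i.succ : Fin (e + 1))} = 0 := by
      rw [Fintype.card_eq_zero_iff]
      refine ⟨fun j => ?_⟩
      have : (0 : Fin (e + 1)) = i.succ := j.2
      exact Fin.succ_ne_zero i this.symm
    split_ifs at h1 <;> omega
  have := Fintype.card_le_of_injective (fun i : Fin e => (⟨(i.succ : Fin (e + 1)), hlow i⟩ : Low (chain n e l)))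
    (by
      intro a b hab
      exact Fin.succ_injective _ (congrArg Subtype.val hab))
  simpa using this

end Pool.Agent.KS6_28.CH
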