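import Mathlib

/-!
# Krull dimension of a ring with finitely many integral maps to domains
-/

set_option autoImplicit false
set_option linter.style.haveILetI false

namespace Pool.Agent.KS6_28.CH

/-- comap along an integral map is strictly monotone on spectra -/
theorem dim_le_of_integral {A R : Type*} [CommRing A] [CommRing R] (f : A →+* R)
    (hf : f.IsIntegral) : ringKrullDim R ≤ ringKrullDim A := by
  letI := f.toAlgebra
  haveI : Algebra.IsIntegral A R := ⟨hf⟩
  refine Order.krullDim_le_of_strictMono (PrimeSpectrum.comap f) ?_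
  intro P Q h
  exact Ideal.IsIntegral.comap_lt_comap (R := A) (A := R) h

theorem integral_rangeR {A R : Type*} [CommRing A] [CommRing R] (f : A →+* R) (hf : f.IsIntegral)
    (P : Ideal A) [P.IsPrime] (hP : RingHom.ker f ≤ P) :
    ∃ Q : Ideal R, Q.IsPrime ∧ Q.comap f = P := by
  letI := f.toAlgebra
  haveI : Algebra.IsIntegral A R := ⟨hf⟩
  have h := Ideal.exists_ideal_over_prime_of_isIntegral (R := A) (S := R) P ⊥ (by
    intro x hx
    exact hP hx)
  obtain ⟨Q, -, hQ, h2⟩ := h
  exact ⟨Q, hQ, h2⟩

theorem length_le {A R : Type*} [CommRing A] [CommRing R] (f : A →+* R) (hf : f.IsIntegral)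
    (l : LTSeries (PrimeSpectrum A)) (h : RingHom.ker f ≤ l.head.asIdeal) :
    (l.length : WithBot ℕ∞) ≤ ringKrullDim R := by
  letI := f.toAlgebra
  haveI : Algebra.IsIntegral A R := ⟨hf⟩
  obtain ⟨Q, hQ, hc⟩ := integral_rangeR f hf l.head.asIdeal h
  haveI : Q.LiesOver (RelSeries.head l).asIdeal := ⟨hc.symm⟩
  obtain ⟨L, hL, -, -⟩ := Ideal.exists_ltSeries_of_hasGoingUp (S := R) l Q
  have := Order.LTSeries.length_le_krullDim L
  rw [hL] at this
  exact this

/-- a product of finitely many kernels is nilpotent, so every prime contains a kernel -/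
theorem exists_ker_le {A : Type*} [CommRing A] {m : ℕ} {R : Fin m → Type*} [∀ j, CommRing (R j)]
    (f : ∀ j, A →+* R j) (hnil : (⨅ j, RingHom.ker (f j)) ≤ nilradical A) (P : Ideal A)
    (hP : P.IsPrime) : ∃ j, RingHom.ker (f j) ≤ P := by
  have h1 : (⨅ j, RingHom.ker (f j)) ≤ P := hnil.trans (nilradical_le_prime P)
  have h2 : (Finset.univ : Finset (Fin m)).inf (fun j => RingHom.ker (f j)) ≤ P := by
    rw [Finset.inf_univ_eq_iInf]
    exact h1
  obtain ⟨j, -, hj⟩ := (Ideal.IsPrime.inf_le' hP).1 h2
  exact ⟨j, hj⟩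

theorem dim_eq {A : Type*} [CommRing A] {m : ℕ} {R : Fin m → Type*} [∀ j, CommRing (R j)]
    (f : ∀ j, A →+* R j) (hf : ∀ j, (f j).IsIntegral)
    (hnil : (⨅ j, RingHom.ker (f j)) ≤ nilradical A) :
    ringKrullDim A = ⨆ j, ringKrullDim (R j) := by
  apply le_antisymm
  · rw [ringKrullDim, Order.krullDim]
    refine iSup_le fun l => ?_
    obtain ⟨j, hj⟩ := exists_ker_le f hnil l.head.asIdeal l.head.2
    exact (length_le (f j) (hf j) l hj).trans (le_iSup (fun j => ringKrullDim (R j)) j)
  · exact iSup_le fun j => dim_le_of_integral (f j) (hf j)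

/-- a ring generated by `g` elements over a field has dimension at most `g` -/
theorem dim_le_of_generators {k B : Type*} [Field k] [CommRing B] [Algebra k B] {g : ℕ}
    (x : Fin g → B) (hx : Algebra.adjoin k (Set.range x) = ⊤) : ringKrullDim B ≤ (g : ℕ) := by
  have hs : Function.Surjective (MvPolynomial.aeval x : MvPolynomial (Fin g) k →ₐ[k] B) := by
    rw [← AlgHom.range_eq_top, ← Algebra.adjoin_range_eq_range_aeval]
    exact hx
  have h := ringKrullDim_le_of_surjective (MvPolynomial.aeval x : MvPolynomial (Fin g) k →ₐ[k] B).toRingHom hs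
  rw [MvPolynomial.ringKrullDim_of_isNoetherianRing, ringKrullDim_eq_zero_of_field, zero_add,
    Nat.card_eq_fintype_card, Fintype.card_fin] at h
  exact h

end Pool.Agent.KS6_28.CH
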