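import Pool.Graph.R_seed8.H353R3.Ch4

/-!
# `⊗_v CH^*(M_{0,n(v)}^sm)` is a polynomial ring in the vertices of valence at most two
-/

set_option autoImplicit false

namespace Pool.Agent.KS6_28.CH

open MvPolynomial Pool.Agent.H353R3.Ch

variable {n : ℕ} (Γ : PTree n)

/-- The vertices of valence at most two. -/
abbrev Low : Type := {v : Γ.V // Γ.val v ≤ 2}

noncomputable instance : Fintype (Low Γ) := inferInstance

theorem exists_flag (v : Γ.V) (hv : Γ.val v ≠ 0) : ∃ h : Γ.Flag, Γ.base h = v := by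
  by_contra hcon
  push Not at hcon
  apply hv
  rw [PTree.val, Fintype.card_eq_zero_iff]
  exact ⟨fun h => hcon h.1 h.2⟩

/-- a chosen flag at a vertex -/
noncomputable def fl (v : Γ.V) (hv : Γ.val v ≠ 0) : Γ.Flag := (exists_flag Γ v hv).choose

theorem base_fl (v : Γ.V) (hv : Γ.val v ≠ 0) : Γ.base (fl Γ v hv) = v :=
  (exists_flag Γ v hv).choose_spec

theorem val_base_ne (h : Γ.Flag) : Γ.val (Γ.base h) ≠ 0 := by
  intro h0
  rw [PTree.val, Fintype.card_eq_zero_iff] at h0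
  exact h0.false ⟨h, rfl⟩

open Classical in
/-- the values on the generators -/
noncomputable def toGen : Γ.Gen → MvPolynomial (Low Γ) ℚ
  | Sum.inl h => if hv : Γ.val (Γ.base h) ≤ 2 then
      (if h = fl Γ (Γ.base h) (val_base_ne Γ h) then X ⟨Γ.base h, hv⟩ else -X ⟨Γ.base h, hv⟩)
      else 0
  | Sum.inr v => X ⟨v.1, by rw [v.2]; omega⟩

theorem toGen_zero (h : Γ.Flag) (hv : 3 ≤ Γ.val (Γ.base h)) : toGen Γ (Sum.inl h) = 0 := by
  rw [toGen, dif_neg (by omega)]

/-- the other flag -/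
theorem two_flags (v : Γ.V) (hv : Γ.val v = 2) (h h' g : Γ.Flag) (hne : h ≠ h')
    (hb : Γ.base h = v) (hb' : Γ.base h' = v) (hg : Γ.base g = v) : g = h ∨ g = h' := by
  classical
  by_contra hcon
  push Not at hcon
  have h3 : ({⟨h, hb⟩, ⟨h', hb'⟩, ⟨g, hg⟩} : Finset {h : Γ.Flag // Γ.base h = v}).card = 3 := by
    rw [Finset.card_eq_three]
    refine ⟨_, _, _, ?_, ?_, ?_, rfl⟩
    · intro h; exact hne (congrArg Subtype.val h)
    · intro h; exact hcon.1 (congrArg Subtype.val h).symm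
    · intro h; exact hcon.2 (congrArg Subtype.val h).symm
  have := Finset.card_le_univ ({⟨h, hb⟩, ⟨h', hb'⟩, ⟨g, hg⟩} : Finset {h : Γ.Flag // Γ.base h = v})
  rw [PTree.val] at hv
  omega

theorem toGen_add (h h' : Γ.Flag) (hne : h ≠ h') (hb : Γ.base h = Γ.base h')
    (hv : Γ.val (Γ.base h) = 2) : toGen Γ (Sum.inl h) + toGen Γ (Sum.inl h') = 0 := by
  have key : ∀ v (_ : Γ.val v = 2) (h h' : Γ.Flag) (_ : h ≠ h') (hb : Γ.base h = v)
      (hb' : Γ.base h' = v) (hle : Γ.val v ≤ 2) (h0 : Γ.val v ≠ 0),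
      (if h = fl Γ v h0 then (X ⟨v, hle⟩ : MvPolynomial (Low Γ) ℚ) else -X ⟨v, hle⟩) +
      (if h' = fl Γ v h0 then X ⟨v, hle⟩ else -X ⟨v, hle⟩) = 0 := by
    intro v hv h h' hne hb hb' hle h0
    rcases two_flags Γ v hv h h' (fl Γ v h0) hne hb hb' (base_fl Γ v h0) with hh | hh
    · rw [if_pos hh.symm, if_neg (fun hc => hne (hh.symm.trans hc.symm)), add_neg_cancel]
    · rw [if_neg (fun hc => hne (hc.trans hh)), if_pos hh.symm, neg_add_cancel]
  have h1 : toGen Γ (Sum.inl h) =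
      (if h = fl Γ (Γ.base h) (val_base_ne Γ h) then X ⟨Γ.base h, hv.le⟩ else -X ⟨Γ.base h, hv.le⟩) := by
    rw [toGen, dif_pos hv.le]
  have h2 : toGen Γ (Sum.inl h') =
      (if h' = fl Γ (Γ.base h) (val_base_ne Γ h) then X ⟨Γ.base h, hv.le⟩ else -X ⟨Γ.base h, hv.le⟩) := by
    have hv' : Γ.val (Γ.base h') ≤ 2 := by rw [← hb]; exact hv.le
    rw [toGen, dif_pos hv']
    simp only [← hb]
  rw [h1, h2]
  exact key _ hv h h' hne rfl hb.symm _ _

/-- `R Γ → ℚ[vertices of valence ≤ 2]`. -/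
noncomputable def toPoly : Γ.R →ₐ[ℚ] MvPolynomial (Low Γ) ℚ :=
  Ideal.Quotient.liftₐ Γ.relIdeal (aeval (toGen Γ)) (by
    intro a ha
    have : Γ.relIdeal ≤ RingHom.ker (aeval (toGen Γ) : MvPolynomial Γ.Gen ℚ →ₐ[ℚ] _) := by
      rw [PTree.relIdeal, Ideal.span_le]
      rintro p (⟨h, hv, rfl⟩ | ⟨h, h', hne, hb, hv, rfl⟩)
      · simp only [SetLike.mem_coe, RingHom.mem_ker, aeval_X]
        exact toGen_zero Γ h hv
      · simp only [SetLike.mem_coe, RingHom.mem_ker, map_add, aeval_X]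
        exact toGen_add Γ h h' hne hb hv
    exact this ha)

theorem toPoly_quo (p : MvPolynomial Γ.Gen ℚ) : toPoly Γ (Γ.quo p) = aeval (toGen Γ) p := rfl

open Classical in
/-- `ℚ[vertices of valence ≤ 2] → R Γ`. -/
noncomputable def ofPoly : MvPolynomial (Low Γ) ℚ →ₐ[ℚ] Γ.R :=
  aeval fun v => if h : Γ.val v.1 = 0 then Γ.yy ⟨v.1, h⟩ else Γ.psi (fl Γ v.1 h)

theorem ofPoly_gen (g : Γ.Gen) : ofPoly Γ (toGen Γ g) = Γ.quo (X g) := by
  rcases g with h | v
  · by_cases hv : Γ.val (Γ.base h) ≤ 2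
    · rw [toGen, dif_pos hv]
      by_cases hh : h = fl Γ (Γ.base h) (val_base_ne Γ h)
      · rw [if_pos hh, ofPoly, aeval_X, dif_neg (val_base_ne Γ h), ← hh]
        rfl
      · rw [if_neg hh, map_neg, ofPoly, aeval_X, dif_neg (val_base_ne Γ h)]
        have hb := base_fl Γ (Γ.base h) (val_base_ne Γ h)
        have hval : Γ.val (Γ.base h) = 2 := by
          have h0 := val_base_ne Γ h
          have : Γ.val (Γ.base h) ≠ 1 := by
            intro h1
            rw [PTree.val, Fintype.card_eq_one_iff] at h1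
            obtain ⟨x, hx⟩ := h1
            have e1 := hx ⟨h, rfl⟩
            have e2 := hx ⟨_, hb⟩
            exact hh (congrArg Subtype.val (e1.trans e2.symm))
          omega
        exact (psi_two Γ h _ hh hb.symm hval).symm
    · rw [toGen, dif_neg hv, map_zero]
      exact (psi_three Γ h (by omega)).symm
  · rw [toGen, ofPoly, aeval_X, dif_pos v.2]
    rfl

/-- `⊗_v CH^*(M_{0,n(v)}^sm)` is a polynomial ring. -/
noncomputable def polyEquiv : Γ.R ≃ₐ[ℚ] MvPolynomial (Low Γ) ℚ :=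
  AlgEquiv.ofAlgHom (toPoly Γ) (ofPoly Γ)
    (by
      refine MvPolynomial.algHom_ext fun v => ?_
      rw [AlgHom.comp_apply, AlgHom.id_apply, ofPoly, aeval_X]
      split_ifs with h
      · rw [PTree.yy, toPoly_quo, aeval_X]
        rfl
      · rw [PTree.psi, toPoly_quo, aeval_X]
        have hb := base_fl Γ v.1 h
        have hle : Γ.val (Γ.base (fl Γ v.1 h)) ≤ 2 := by rw [hb]; exact v.2
        rw [toGen, dif_pos hle]
        have he : (⟨Γ.base (fl Γ v.1 h), hle⟩ : Low Γ) = v := Subtype.ext hb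
        have hf : ∀ w (hw : Γ.val w ≠ 0), w = v.1 → fl Γ w hw = fl Γ v.1 h := by
          rintro w hw rfl; rfl
        rw [if_pos (hf _ _ hb).symm, he])
    (by
      apply AlgHom.ext
      intro x
      obtain ⟨p, rfl⟩ := quo_surj Γ x
      rw [AlgHom.comp_apply, AlgHom.id_apply, toPoly_quo]
      induction p using MvPolynomial.induction_on with
      | C a =>
        rw [MvPolynomial.aeval_C, AlgHom.commutes]
        exact (Γ.quo.commutes a).symm
      | add p q hp hq => rw [map_add, map_add, map_add, hp, hq]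
      | mul_X p g hp => rw [map_mul, map_mul, map_mul, hp, aeval_X, ofPoly_gen])

instance isDomainR : IsDomain Γ.R :=
  (polyEquiv Γ).toMulEquiv.isDomain (MvPolynomial (Low Γ) ℚ)

theorem dimR : ringKrullDim Γ.R = (Fintype.card (Low Γ) : ℕ) := by
  rw [ringKrullDim_eq_of_ringEquiv (polyEquiv Γ).toRingEquiv,
    MvPolynomial.ringKrullDim_of_isNoetherianRing, ringKrullDim_eq_zero_of_field, zero_add,
    Nat.card_eq_fintype_card]

end Pool.Agent.KS6_28.CH
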