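import Pool.Agent.KS6_28.CH.Poly
import Pool.Agent.KS6_28.CH.Dim

/-!
# Restriction to the strata
-/

set_option autoImplicit false
set_option linter.style.haveILetI false

namespace Pool.Agent.KS6_28.CH

open MvPolynomial Pool.Agent.H353R3.Ch

theorem isIntegral_of_range {P R : Type*} [CommRing P] [CommRing R] [Algebra ℚ P] [Algebra ℚ R]
    (θ : P →ₐ[ℚ] R) (hint : ∀ x : R, IsIntegral θ.range x) : θ.toRingHom.IsIntegral := by
  intro x
  obtain ⟨q, hq, hqx⟩ := hint x
  have hsurj : Function.Surjective (θ.rangeRestrict : P →+* θ.range) :=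
    θ.rangeRestrict_surjective
  have hl : q ∈ Polynomial.lifts (θ.rangeRestrict : P →+* θ.range) :=
    Polynomial.mem_lifts_of_surjective hsurj q
  obtain ⟨p, hp, -, hpm⟩ := Polynomial.lifts_and_natDegree_eq_and_monic hl hq
  refine ⟨p, hpm, ?_⟩
  rw [← hp, Polynomial.eval₂_map] at hqx
  exact hqx

variable {n m : ℕ} {S : Strata n m} (T : Tower S)

/-- the restriction `CH^*(U) → CH^*(U_j)` -/
noncomputable def rr (j : Fin (m + 1)) : S.A (Fin.last m) →ₐ[ℚ] S.A j :=
  Fin.reverseInduction (motive := fun j => S.A (Fin.last m) →ₐ[ℚ] S.A j) (AlgHom.id ℚ _)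
    (fun j f => (T.M.res j).comp f) j

theorem rr_last : rr T (Fin.last m) = AlgHom.id ℚ _ := by
  rw [rr, Fin.reverseInduction_last]

theorem rr_castSucc (j : Fin m) : rr T j.castSucc = (T.M.res j).comp (rr T j.succ) := by
  rw [rr, Fin.reverseInduction_castSucc]
  rfl

/-- the restriction `CH^*(U) → CH^*(𝔐_{Γ_j}) ⊆ ⊗_v CH^*(M_{0,n(v)}^sm)` -/
noncomputable def rho (j : Fin m) : S.A (Fin.last m) →ₐ[ℚ] (S.Γ j).R :=
  (T.M.pull j).comp (rr T j.succ)

theorem rr_classes (j : Fin (m + 1)) : (∀ a, rr T j (T.c.κ (Fin.last m) a) = T.c.κ j a) ∧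
    (∀ i, rr T j (T.c.ψ (Fin.last m) i) = T.c.ψ j i) ∧
    (∀ k, rr T j (T.c.δ (Fin.last m) k) = T.c.δ j k) := by
  induction j using Fin.reverseInduction with
  | last => rw [rr_last]; exact ⟨fun _ => rfl, fun _ => rfl, fun _ => rfl⟩
  | cast j ih =>
    rw [rr_castSucc]
    refine ⟨fun a => ?_, fun i => ?_, fun k => ?_⟩
    · rw [AlgHom.comp_apply, ih.1, T.res.κ]
    · rw [AlgHom.comp_apply, ih.2.1, T.res.ψ]
    · rw [AlgHom.comp_apply, ih.2.2, T.res.δ]

theorem rho_mem (j : Fin m) (x : S.A (Fin.last m)) : rho T j x ∈ (S.Γ j).CHs :=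
  T.loc.pull_mem j _

theorem rho_integral (j : Fin m) : (rho T j).toRingHom.IsIntegral := by
  apply isIntegral_of_range
  intro x
  refine all_integral (S.Γ j) (rho T j).range (Fintype.card (S.Γ j).Flag) le_rfl ?_ ?_ ?_ x
  · intro b hb1 _
    refine ⟨T.c.κ (Fin.last m) (2 * b), ?_⟩
    change T.M.pull j (rr T j.succ _) = _
    rw [(rr_classes T j.succ).1]
    exact T.pull.κ j (2 * b) (by omega)
  · intro i
    refine ⟨T.c.ψ (Fin.last m) i, ?_⟩
    change T.M.pull j (rr T j.succ _) = _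
    rw [(rr_classes T j.succ).2.1]
    exact T.pull.ψ j i
  · intro k hk _
    refine ⟨T.c.δ (Fin.last m) k, ?_⟩
    change T.M.pull j (rr T j.succ _) = _
    rw [(rr_classes T j.succ).2.2]
    exact T.pull.δ j k hk

/-- the ideal of the classes which restrict to zero on all strata -/
noncomputable def kerAll : Ideal (S.A (Fin.last m)) := ⨅ j, RingHom.ker (rho T j)

theorem push_zero (j : Fin m) : T.M.push j 0 = 0 := by
  have h := T.loc.push_add j 0 (S.Γ j).CHs.zero_mem 0 (S.Γ j).CHs.zero_mem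
  rw [add_zero] at h
  exact left_eq_add.1 h

theorem step (j : Fin m) (x y : S.A (Fin.last m)) (hx : x ∈ kerAll T)
    (hy : rr T j.castSucc y = 0) : rr T j.succ (x * y) = 0 := by
  rw [rr_castSucc, AlgHom.comp_apply] at hy
  obtain ⟨z, hz, hpz⟩ := (T.loc.exact j _).1 hy
  rw [map_mul, ← hpz, ← T.loc.proj j _ z hz]
  have h : T.M.pull j (rr T j.succ x) = 0 := by
    have := (Ideal.mem_iInf.1 hx) j
    exact this
  rw [h, zero_mul, push_zero]

theorem kerAll_pow_le (j : Fin (m + 1)) : kerAll T ^ (j : ℕ) ≤ RingHom.ker (rr T j) := by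
  induction j using Fin.induction with
  | zero =>
    haveI := T.loc.empty
    intro x _
    exact Subsingleton.elim _ _
  | succ j ih =>
    rw [Fin.val_succ, pow_succ', Ideal.mul_le]
    intro x hx y hy
    exact step T j x y hx (ih hy)

/-- The classes which restrict to zero on all `m` strata form a nilpotent ideal. -/
theorem kerAll_pow : kerAll T ^ m = ⊥ := by
  have h := kerAll_pow_le T (Fin.last m)
  rw [Fin.val_last] at h
  rw [eq_bot_iff]
  refine h.trans ?_
  intro x hx
  rw [RingHom.mem_ker, rr_last] at hx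
  exact hx

theorem kerAll_le_nil : kerAll T ≤ nilradical (S.A (Fin.last m)) := by
  intro x hx
  rw [mem_nilradical]
  refine ⟨m, ?_⟩
  have := Ideal.pow_mem_pow hx m
  rw [kerAll_pow] at this
  exact this

theorem nil_le_kerAll : nilradical (S.A (Fin.last m)) ≤ kerAll T := by
  refine le_iInf fun j => ?_
  haveI : (RingHom.ker (rho T j)).IsPrime := RingHom.ker_isPrime _
  exact nilradical_le_prime _

theorem kerAll_eq : kerAll T = nilradical (S.A (Fin.last m)) :=
  le_antisymm (kerAll_le_nil T) (nil_le_kerAll T)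

include T in
theorem dim_tower : ringKrullDim (S.A (Fin.last m)) = ⨆ j, ((Fintype.card (Low (S.Γ j)) : ℕ) : WithBot ℕ∞) := by
  have h := dim_eq (A := S.A (Fin.last m)) (R := fun j => (S.Γ j).R)
    (fun j => (rho T j).toRingHom) (rho_integral T) (kerAll_le_nil T)
  rw [h]
  exact iSup_congr fun j => dimR (S.Γ j)

theorem prime_comap (P : Ideal (S.A (Fin.last m))) (hP : P.IsPrime) :
    ∃ (j : Fin m) (Q : Ideal (S.Γ j).R), Q.IsPrime ∧ Q.comap (rho T j) = P := by
  obtain ⟨j, hj⟩ := exists_ker_le (A := S.A (Fin.last m)) (R := fun j => (S.Γ j).R)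
    (fun j => (rho T j).toRingHom) (kerAll_le_nil T) P hP
  obtain ⟨Q, hQ, h⟩ := integral_rangeR (rho T j).toRingHom (rho_integral T j) P hj
  exact ⟨j, Q, hQ, h⟩

theorem minimal_prime (P : Ideal (S.A (Fin.last m))) (hP : P ∈ minimalPrimes (S.A (Fin.last m))) :
    ∃ j : Fin m, P = RingHom.ker (rho T j) := by
  have hPp : P.IsPrime := hP.1.1
  obtain ⟨j, hj⟩ := exists_ker_le (A := S.A (Fin.last m)) (R := fun j => (S.Γ j).R)
    (fun j => (rho T j).toRingHom) (kerAll_le_nil T) P hPp
  haveI : (RingHom.ker (rho T j)).IsPrime := RingHom.ker_isPrime _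
  exact ⟨j, le_antisymm (hP.2 ⟨this, bot_le⟩ hj) hj⟩

theorem dim_quot (j : Fin m) :
    ringKrullDim (S.A (Fin.last m) ⧸ RingHom.ker (rho T j)) = (Fintype.card (Low (S.Γ j)) : ℕ) := by
  have hi : (RingHom.kerLift (rho T j).toRingHom).IsIntegral := by
    intro x
    obtain ⟨p, hp, hpx⟩ := rho_integral T j x
    refine ⟨p.map (Ideal.Quotient.mk _), hp.map _, ?_⟩
    rw [Polynomial.eval₂_map]
    exact hpx
  have h := dim_eq (m := 1) (A := S.A (Fin.last m) ⧸ RingHom.ker (rho T j).toRingHom)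
    (R := fun _ => (S.Γ j).R) (fun _ => RingHom.kerLift (rho T j).toRingHom) (fun _ => hi) (by
      refine (iInf_le _ 0).trans ?_
      rw [(RingHom.injective_iff_ker_eq_bot _).1 (RingHom.kerLift_injective (rho T j).toRingHom)]
      exact bot_le)
  rw [dimR, ciSup_const] at h
  exact h

/-! ### finiteness over the tautological classes -/

theorem finite_allN (N : ℕ) (hN : ∀ j, Fintype.card (S.Γ j).Flag ≤ N) (j : Fin (m + 1)) :
    (aeval (cls T N j) : MvPolynomial _ ℚ →ₐ[ℚ] S.A j).toRingHom.Finite := by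
  induction j using Fin.induction with
  | zero =>
    haveI := T.loc.empty
    exact RingHom.Finite.of_surjective _ (fun x => ⟨0, Subsingleton.elim _ _⟩)
  | succ j ih =>
    set φ : MvPolynomial _ ℚ →ₐ[ℚ] S.A j.succ := aeval (cls T N j.succ) with hφ
    have hcomp : (T.M.res j).comp φ = aeval (cls T N j.castSucc) := by
      refine MvPolynomial.algHom_ext fun g => ?_
      rw [AlgHom.comp_apply, hφ, aeval_X, aeval_X]
      rcases g with b | i | k
      · exact T.res.κ j _
      · exact T.res.ψ j _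
      · exact T.res.δ j _
    have h' : ((T.M.res j).toRingHom.comp φ.toRingHom).Finite := by
      have : (T.M.res j).toRingHom.comp φ.toRingHom =
          (aeval (cls T N j.castSucc) : MvPolynomial _ ℚ →ₐ[ℚ] S.A j.castSucc).toRingHom := by
        rw [← hcomp]; rfl
      rw [this]
      exact ih
    let θ : MvPolynomial (Fin (N + 1) ⊕ Fin n ⊕ Fin (N + 1)) ℚ →ₐ[ℚ] (S.Γ j).R :=
      (T.M.pull j).comp φ
    have hθ : ∀ g, θ (X g) = T.M.pull j (cls T N j.succ g) := by
      intro g
      simp only [θ, AlgHom.comp_apply, hφ, aeval_X]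
    have hint : ∀ x : (S.Γ j).R, IsIntegral θ.range x := by
      refine all_integral (S.Γ j) θ.range N (hN j) ?_ ?_ ?_
      · intro b hb1 hb2
        refine ⟨X (Sum.inl ⟨b - 1, by omega⟩), ?_⟩
        have h1 := hθ (Sum.inl ⟨b - 1, by omega⟩)
        have h2 := T.pull.κ j (2 * b) (by omega)
        rw [← h2]
        refine h1.trans ?_
        simp only [cls]
        rw [show b - 1 + 1 = b by omega]
      · intro i
        refine ⟨X (Sum.inr (Sum.inl i)), ?_⟩
        rw [← T.pull.ψ j i]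
        exact hθ _
      · intro k hk1 hk2
        refine ⟨X (Sum.inr (Sum.inr ⟨k - 1, by omega⟩)), ?_⟩
        have h1 := hθ (Sum.inr (Sum.inr ⟨k - 1, by omega⟩))
        have h2 := T.pull.δ j k hk1
        rw [← h2]
        refine h1.trans ?_
        simp only [cls]
        rw [show k - 1 + 1 = k by omega]
    have hθfin : θ.toRingHom.Finite := by
      haveI : Algebra.FiniteType ℚ (S.Γ j).R :=
        Algebra.FiniteType.of_surjective (S.Γ j).quo (quo_surj (S.Γ j))
      exact finite_of_integral θ hint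
    let pu : S.A j.succ →ₐ[ℚ] (S.Γ j).CHs := (T.M.pull j).codRestrict _ (T.loc.pull_mem j)
    refine finite_step φ.toRingHom (T.M.res j).toRingHom (T.loc.res_surj j) h'
      (S.Γ j).CHs.val.toRingHom Subtype.val_injective pu.toRingHom hθfin
      (AddMonoidHom.mk' (fun y : (S.Γ j).CHs => T.M.push j y.1)
        (fun x y => T.loc.push_add j x.1 x.2 y.1 y.2)) ?_ ?_
    · intro x y
      exact T.loc.proj j x y.1 y.2
    · intro x
      refine (T.loc.exact j x).trans ⟨?_, ?_⟩
      · rintro ⟨y, hy, h⟩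
        exact ⟨⟨y, hy⟩, h⟩
      · rintro ⟨y, h⟩
        exact ⟨y.1, y.2, h⟩

theorem finite_tautN (N : ℕ) (hN : ∀ j, Fintype.card (S.Γ j).Flag ≤ N) :
    Module.Finite (taut T (N + 1)) (S.A (Fin.last m)) := by
  have h := finite_allN T N hN (Fin.last m)
  set ψ' : MvPolynomial (Fin (N + 1) ⊕ Fin n ⊕ Fin (N + 1)) ℚ →ₐ[ℚ] _ :=
    aeval (cls T N (Fin.last m)) with hψ'
  have hr : ∀ p, ψ' p ∈ taut T (N + 1) := by
    intro p
    have : ψ'.range ≤ taut T (N + 1) := by
      rw [hψ', ← Algebra.adjoin_range_eq_range_aeval]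
      refine Algebra.adjoin_mono ?_
      rintro _ ⟨g, rfl⟩
      rcases g with b | i | k
      · exact Or.inl (Or.inl ⟨b + 1, by omega, by omega, rfl⟩)
      · exact Or.inl (Or.inr ⟨i, rfl⟩)
      · exact Or.inr ⟨k + 1, by omega, by omega, rfl⟩
    exact this ⟨p, rfl⟩
  let ρ : MvPolynomial (Fin (N + 1) ⊕ Fin n ⊕ Fin (N + 1)) ℚ →ₐ[ℚ] taut T (N + 1) :=
    ψ'.codRestrict _ hr
  have hcomp : (algebraMap (taut T (N + 1)) (S.A (Fin.last m))).comp ρ.toRingHom =
      ψ'.toRingHom := rfl
  rw [← hcomp] at h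
  have h2 := RingHom.Finite.of_comp_finite h
  exact RingHom.finite_algebraMap.1 h2

end Pool.Agent.KS6_28.CH
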