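import Pool.Agent.KS6_28.CH.Comb

/-!
# Chow rings of arbitrary open unions of strata
-/

set_option autoImplicit false
set_option linter.style.haveILetI false

namespace Pool.Agent.KS6_28.CH

open Pool.Agent.H353R3.Ch

/-- The formal properties of `B = CH^*(U)` for an open union `U` of strata of `𝔐_{0,n}`, of finite
type or not.
* `ι` is the set of the strata of `U`, `Γ a` the prestable graph of the stratum `a`; different
  strata have non-isomorphic graphs.
* `piece`: every finite set `s` of strata of `U` lies in an open substack `U' ⊆ U` of finite type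
  which is a union of (finitely many) strata; its strata can be ordered by the number of nodes,
  which gives a localization tower with last ring `CH^*(U')`; the restriction
  `CH^*(U) → CH^*(U')` is surjective, and it is an isomorphism if `U' = U`. -/
structure OpenUnion (n : ℕ) (B : Type) [CommRing B] [Algebra ℚ B] where
  ι : Type
  Γ : ι → PTree n
  inj : ∀ a b, PIso (Γ a) (Γ b) → a = b
  piece : ∀ s : Finset ι, ∃ (m : ℕ) (S : Strata n m) (e : Fin m → ι)
    (f : B →ₐ[ℚ] S.A (Fin.last m)), Nonempty (Tower S) ∧ Function.Injective e ∧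
    (∀ j, PIso (S.Γ j) (Γ (e j))) ∧ (∀ a ∈ s, a ∈ Set.range e) ∧ Function.Surjective f ∧
    (Set.range e = Set.univ → Function.Injective f)

variable {n : ℕ} {B : Type} [CommRing B] [Algebra ℚ B] (U : OpenUnion n B)

/-- The number of vertices of valence at most two of the graph of a stratum, that is, the number of
the components of the curves of the stratum with at most two special points. -/
noncomputable def low (a : U.ι) : ℕ := Fintype.card (Low (U.Γ a))

theorem low_le_dim (a : U.ι) : ((low U a : ℕ) : WithBot ℕ∞) ≤ ringKrullDim B := by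
  classical
  obtain ⟨m, S, e, f, ⟨T⟩, -, hΓ, hs, hsurj, -⟩ := U.piece {a}
  obtain ⟨j, hj⟩ := hs a (Finset.mem_singleton_self a)
  have h1 : ringKrullDim (S.A (Fin.last m)) ≤ ringKrullDim B :=
    ringKrullDim_le_of_surjective f.toRingHom hsurj
  refine le_trans ?_ h1
  rw [dim_tower T]
  have h2 : low U a = Fintype.card (Low (S.Γ j)) := by
    rw [low, ← hj]
    exact (low_iso (hΓ j)).symm
  rw [h2]
  exact le_iSup (fun j => ((Fintype.card (Low (S.Γ j)) : ℕ) : WithBot ℕ∞)) j

/-- if `U` has infinitely many strata, the number of vertices of valence at most two is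
unbounded -/
theorem exists_low_gt (h : Infinite U.ι) (N : ℕ) : ∃ a, N < low U a := by
  by_contra hcon
  push Not at hcon
  have : Finite U.ι := by
    refine finite_of_card_le (N := 3 * N + n) U.Γ U.inj fun a => ?_
    have h1 := card_le (U.Γ a)
    have h2 := hcon a
    rw [low] at h2
    omega
  exact not_finite U.ι

theorem exists_full (h : Finite U.ι) : ∃ (m : ℕ) (S : Strata n m) (e : Fin m → U.ι)
    (f : B →ₐ[ℚ] S.A (Fin.last m)), Nonempty (Tower S) ∧ Function.Bijective e ∧
    (∀ j, PIso (S.Γ j) (U.Γ (e j))) ∧ Function.Bijective f := by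
  classical
  haveI := Fintype.ofFinite U.ι
  obtain ⟨m, S, e, f, hT, he, hΓ, hs, hsurj, hinj⟩ := U.piece Finset.univ
  have hr : Set.range e = Set.univ := Set.eq_univ_of_forall fun a => hs a (Finset.mem_univ a)
  exact ⟨m, S, e, f, hT, ⟨he, Set.range_eq_univ.1 hr⟩, hΓ, hinj hr, hsurj⟩

theorem eq_top_of_forall (x : WithBot ℕ∞) (h : ∀ N : ℕ, ((N : ℕ) : WithBot ℕ∞) ≤ x) : x = ⊤ := by
  induction x using WithBot.recBotCoe with
  | bot =>
    exfalso
    have h0 := h 0
    rw [le_bot_iff] at h0
    exact WithBot.coe_ne_bot h0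
  | coe y =>
    have : y = ⊤ := by
      rw [ENat.eq_top_iff_forall_ge]
      intro N
      have := h N
      exact_mod_cast this
    rw [this]
    rfl

/-- The Krull dimension of `CH^*(U)` is the supremum of the numbers of vertices of valence at most
two of the graphs of the strata. -/
theorem dim_union : ringKrullDim B = ⨆ a, ((low U a : ℕ) : WithBot ℕ∞) := by
  apply le_antisymm _ (iSup_le (low_le_dim U))
  rcases finite_or_infinite U.ι with h | h
  · obtain ⟨m, S, e, f, ⟨T⟩, he, hΓ, hf⟩ := exists_full U h
    rw [ringKrullDim_eq_of_ringEquiv (RingEquiv.ofBijective f.toRingHom hf), dim_tower T]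
    refine iSup_le fun j => ?_
    rw [low_iso (hΓ j)]
    exact le_iSup (fun a => ((low U a : ℕ) : WithBot ℕ∞)) (e j)
  · have : (⨆ a, ((low U a : ℕ) : WithBot ℕ∞)) = ⊤ := by
      apply eq_top_of_forall
      intro N
      obtain ⟨a, ha⟩ := exists_low_gt U h N
      refine le_trans ?_ (le_iSup _ a)
      exact_mod_cast ha.le
    rw [this]
    exact le_top

/-- The number of generators bounds the graphs of the strata. -/
theorem generators {g : ℕ} (x : Fin g → B) (hx : Algebra.adjoin ℚ (Set.range x) = ⊤) (a : U.ι) :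
    low U a ≤ g ∧ Fintype.card (U.Γ a).V + 2 ≤ 3 * g + n := by
  have h1 := (low_le_dim U a).trans (dim_le_of_generators x hx)
  have h2 : low U a ≤ g := by exact_mod_cast h1
  refine ⟨h2, ?_⟩
  have h3 := card_le (U.Γ a)
  rw [low] at h2
  omega

theorem finite_of_ft (h : Algebra.FiniteType ℚ B) : Finite U.ι := by
  obtain ⟨s, hs⟩ := h.out
  let x : Fin s.card → B := fun i => (s.equivFin.symm i : B)
  have hx : Set.range x = s := by
    ext b
    constructor
    · rintro ⟨i, rfl⟩
      exact (s.equivFin.symm i).2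
    · intro hb
      refine ⟨s.equivFin ⟨b, hb⟩, ?_⟩
      simp [x]
  refine finite_of_card_le (N := 3 * s.card + n) U.Γ U.inj fun a => ?_
  have := (generators U x (by rw [hx]; exact hs) a).2
  omega

theorem ft_of_finite (h : Finite U.ι) : Algebra.FiniteType ℚ B := by
  obtain ⟨m, S, e, f, ⟨T⟩, he, hΓ, hf⟩ := exists_full U h
  haveI := finiteType T
  exact Algebra.FiniteType.equiv inferInstance (AlgEquiv.ofBijective f hf).symm

/-- `CH^*(U)` is finitely generated if and only if `U` is of finite type. -/
theorem ft_iff : Algebra.FiniteType ℚ B ↔ Finite U.ι := ⟨finite_of_ft U, ft_of_finite U⟩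

theorem dim_lt_top_iff : ringKrullDim B < ⊤ ↔ Finite U.ι := by
  constructor
  · intro h
    by_contra hcon
    rw [not_finite_iff_infinite] at hcon
    refine h.ne (eq_top_of_forall _ fun N => ?_)
    obtain ⟨a, ha⟩ := exists_low_gt U hcon N
    refine le_trans ?_ (low_le_dim U a)
    exact_mod_cast ha.le
  · intro h
    haveI := Fintype.ofFinite U.ι
    rw [dim_union U]
    refine lt_of_le_of_lt (b := (((Finset.univ.sup (low U) : ℕ) : ℕ∞) : WithBot ℕ∞)) ?_ ?_
    · refine iSup_le fun a => ?_
      exact_mod_cast Finset.le_sup (f := low U) (Finset.mem_univ a)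
    · exact WithBot.coe_lt_coe.2 (ENat.coe_lt_top _)

/-- `U = 𝔐_{0,n}^{≤ e}`: the strata are all graphs with at most `e` edges. -/
def IsAtMost (e : ℕ) : Prop :=
  (∀ a, Fintype.card (U.Γ a).V ≤ e + 1) ∧
    ∀ Γ : PTree n, Fintype.card Γ.V ≤ e + 1 → ∃ a, PIso Γ (U.Γ a)

theorem dim_atMost (e : ℕ) (h : IsAtMost U e) :
    ringKrullDim B = ((if n ≤ 2 then e + 1 else e : ℕ) : WithBot ℕ∞) := by
  rw [dim_union U]
  apply le_antisymm
  · refine iSup_le fun a => ?_
    have h1 := h.1 a
    have h2 := low_le (U.Γ a)
    have h3 : low U a ≤ if n ≤ 2 then e + 1 else e := by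
      rw [low]
      split_ifs with hn
      · omega
      · have := low_lt (U.Γ a) (by omega)
        omega
    exact_mod_cast h3
  · have key : ∀ k : ℕ, (∃ Γ : PTree n, Fintype.card Γ.V = e + 1 ∧ k ≤ Fintype.card (Low Γ)) →
        ((k : ℕ) : WithBot ℕ∞) ≤ ⨆ a, ((low U a : ℕ) : WithBot ℕ∞) := by
      rintro k ⟨Γ, hV, hk⟩
      obtain ⟨a, ha⟩ := h.2 Γ hV.le
      refine le_trans ?_ (le_iSup _ a)
      have : k ≤ low U a := by
        rw [low, ← low_iso ha]
        exact hk
      exact_mod_cast this
    split_ifs with hn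
    · obtain ⟨Γ, h1, h2⟩ := exists_chain_low hn e
      exact key _ ⟨Γ, h1, h2.ge⟩
    · exact key _ (exists_chain_low' e)

end Pool.Agent.KS6_28.CH
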